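import Pool.Agent.Helper94_Rad.Stmt

/-!
# The radical lemma for polynomials of degree at least two: statements
-/

namespace Pool.Agent.RAD

open Polynomial
open Helper5Frey (partRad)

/-- The three shapes of a value with a small radical outside `K` (degree at least two). -/
def Shp2Stmt : Prop := ∀ (D B : ℕ) (ε : ℝ), 2 ≤ D → 0 < ε → ε < 1 → ∃ H₀ : ℕ, ∀ H : ℕ, H₀ ≤ H →
  ∀ (R : ℤ[X]) (K : ℕ), Good D B H R K → ∀ c : ℤ, |c| ≤ (H : ℤ) → R.eval c ≠ 0 →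
    ¬ Near R ((H : ℝ) ^ (1 - ε / (16 * D))) c →
    (smallPart K H (R.eval c).natAbs : ℝ) ≤
      (H : ℝ) ^ (ε / 2) * (smallRad K H (R.eval c).natAbs : ℝ) →
    (partRad K (R.eval c).natAbs : ℝ) ≤ (H : ℝ) ^ (2 - ε) →
    ∃ u : ℕ, 1 ≤ u ∧ u ≤ H ^ (B + D + 1) ∧ u.primeFactors ⊆ K.primeFactors ∧
      (((u : ℤ) ∣ R.eval c ∧ (R.leadingCoeff.natAbs : ℝ) * (H : ℝ) ^ (ε / 4) ≤ u) ∨
        ∃ (v q e : ℕ) (σ : ℤ), 1 ≤ v ∧ Nat.Coprime v K ∧ (v : ℝ) ≤ (H : ℝ) ^ (1 - ε / 2) ∧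
          1 ≤ q ∧ 2 ≤ e ∧ e ≤ B + D + 1 ∧ (σ = 1 ∨ σ = -1) ∧
          R.eval c = σ * ((u : ℤ) * v) * (q : ℤ) ^ e)

/-- The radical lemma for polynomials of degree at least two. -/
def Rad2Stmt : Prop := ∀ (D B : ℕ) (ε δ : ℝ), 2 ≤ D → 0 < ε → 0 < δ → ∃ H₀ : ℕ, ∀ H : ℕ, H₀ ≤ H →
  ∀ (R : ℤ[X]) (K : ℕ), Good D B H R K →
    ({c : ℤ | |c| ≤ (H : ℤ) ∧ (R.eval c = 0 ∨
      (partRad K (R.eval c).natAbs : ℝ) ≤ (H : ℝ) ^ (2 - ε))}.ncard : ℝ) ≤ δ * H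

end Pool.Agent.RAD
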