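import Pool.Agent.Helper94_Rad.RAD
import Pool.Agent.Helper94_Rad.Stmt2

/-!
# RAD2: the assembly of the radical lemma in degree at least two
-/

namespace Pool.Agent.RAD

open Polynomial Finset
open Helper5Frey (partRad)

open scoped Classical in
/-- The union over `u` of the sets of UCT. -/
lemma union_one2 (hUCT : UctStmt) (R : ℤ[X]) (D H : ℕ) (hR : R.natDegree = D) (hD : 1 ≤ D)
    (hlc : 1 ≤ R.leadingCoeff.natAbs) (hH : 2 ≤ H) (U : Finset ℕ) (κ lam : ℝ) (hκ : 0 < κ)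
    (hκ1 : κ ≤ 1) (hlam : lam = κ / ((D : ℝ) * (D + 1))) :
    (((Finset.Icc (-(H : ℤ)) H).filter (fun c => ∃ u ∈ U,
      (R.leadingCoeff.natAbs : ℝ) * (H : ℝ) ^ κ ≤ u ∧
      (u : ℤ) ∣ R.eval c)).card : ℝ) ≤ U.card * (7 * D * (H : ℝ) ^ (1 - lam)) := by
  classical
  have hD0 : (1 : ℝ) ≤ D := by exact_mod_cast hD
  have hlam0 : 0 < lam := by rw [hlam]; positivity
  have hlam1 : lam ≤ 1 := by
    rw [hlam, div_le_one (by positivity)]
    nlinarith
  have hH1 : (1 : ℝ) ≤ H := by exact_mod_cast (by omega : 1 ≤ H)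
  have hH0 : (0 : ℝ) < H := by linarith
  set L : ℕ := ⌊(H : ℝ) ^ lam⌋₊ with hL
  have hx1 : 1 ≤ (H : ℝ) ^ lam := Real.one_le_rpow hH1 hlam0.le
  have hL1 : 1 ≤ L := Nat.le_floor (by simpa using hx1)
  have hLle : (L : ℝ) ≤ (H : ℝ) ^ lam := Nat.floor_le (by positivity)
  have hLge : (H : ℝ) ^ lam ≤ 2 * L := by
    have h1 : (H : ℝ) ^ lam < L + 1 := Nat.lt_floor_add_one _
    have h2 : (1 : ℝ) ≤ L := by exact_mod_cast hL1
    linarith
  have hLpow : ((L ^ (D * (D + 1) / 2) : ℕ) : ℝ) < (H : ℝ) ^ κ := by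
    have h1 : ((L ^ (D * (D + 1) / 2) : ℕ) : ℝ) ≤ (H : ℝ) ^ (κ / 2) := by
      push_cast
      calc (L : ℝ) ^ (D * (D + 1) / 2) ≤ ((H : ℝ) ^ lam) ^ (D * (D + 1) / 2) :=
            pow_le_pow_left₀ (by positivity) hLle _
        _ = (H : ℝ) ^ (lam * ((D * (D + 1) / 2 : ℕ) : ℝ)) := by
            rw [← Real.rpow_natCast, ← Real.rpow_mul hH0.le]
        _ ≤ (H : ℝ) ^ (κ / 2) := by
            apply Real.rpow_le_rpow_of_exponent_le hH1
            have h2 : ((D * (D + 1) / 2 : ℕ) : ℝ) ≤ ((D * (D + 1) : ℕ) : ℝ) / 2 := by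
              exact_mod_cast Nat.cast_div_le (α := ℝ) (m := D * (D + 1)) (n := 2)
            calc lam * ((D * (D + 1) / 2 : ℕ) : ℝ) ≤ lam * (((D * (D + 1) : ℕ) : ℝ) / 2) :=
                  mul_le_mul_of_nonneg_left h2 hlam0.le
              _ = κ / 2 := by
                  rw [hlam]
                  push_cast
                  field_simp
    have h3 : (H : ℝ) ^ (κ / 2) < (H : ℝ) ^ κ := by
      apply Real.rpow_lt_rpow_of_exponent_lt _ (by linarith)
      exact_mod_cast (by omega : 1 < H)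
    exact lt_of_le_of_lt h1 h3
  have hsub : (Finset.Icc (-(H : ℤ)) H).filter (fun c => ∃ u ∈ U,
      (R.leadingCoeff.natAbs : ℝ) * (H : ℝ) ^ κ ≤ u ∧ (u : ℤ) ∣ R.eval c) ⊆
      (U.filter (fun u : ℕ => (R.leadingCoeff.natAbs : ℝ) * (H : ℝ) ^ κ ≤ (u : ℝ))).biUnion
        (fun u => (Finset.Icc (-(H : ℤ)) H).filter (fun c => (u : ℤ) ∣ R.eval c)) := by
    intro c hc
    rw [Finset.mem_filter] at hc
    obtain ⟨hc1, u, huU, hu1, hu2⟩ := hc
    rw [Finset.mem_biUnion]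
    exact ⟨u, Finset.mem_filter.mpr ⟨huU, hu1⟩, Finset.mem_filter.mpr ⟨hc1, hu2⟩⟩
  have hone : ∀ u ∈ U.filter (fun u : ℕ => (R.leadingCoeff.natAbs : ℝ) * (H : ℝ) ^ κ ≤ (u : ℝ)),
      ((Finset.Icc (-(H : ℤ)) H).filter (fun c => (u : ℤ) ∣ R.eval c)).card ≤
        D * ((2 * H + 1) / L + 1) := by
    intro u hu
    rw [Finset.mem_filter] at hu
    have hlt : R.leadingCoeff.natAbs * L ^ (D * (D + 1) / 2) < u := by
      have hl0 : (0 : ℝ) < R.leadingCoeff.natAbs := by exact_mod_cast hlc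
      have h1 : ((R.leadingCoeff.natAbs * L ^ (D * (D + 1) / 2) : ℕ) : ℝ) < (u : ℝ) := by
        refine lt_of_lt_of_le ?_ hu.2
        rw [Nat.cast_mul]
        exact mul_lt_mul_of_pos_left hLpow hl0
      exact_mod_cast h1
    have h1 := hUCT R D L H u hR hD hL1 hlt
    rwa [ncard_box] at h1
  have hbd : ((D * ((2 * H + 1) / L + 1) : ℕ) : ℝ) ≤ 7 * D * (H : ℝ) ^ (1 - lam) := by
    have hL0 : (0 : ℝ) < L := by exact_mod_cast hL1
    have h1 : (((2 * H + 1) / L : ℕ) : ℝ) ≤ ((2 * H + 1 : ℕ) : ℝ) / L := Nat.cast_div_le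
    have h2 : ((2 * H + 1 : ℕ) : ℝ) / L ≤ 6 * (H : ℝ) ^ (1 - lam) := by
      rw [div_le_iff₀ hL0]
      have h3 : (H : ℝ) ^ (1 - lam) * (H : ℝ) ^ lam = H := by
        rw [← Real.rpow_add hH0]
        simp
      push_cast
      have h4 : (H : ℝ) ^ (1 - lam) * (H : ℝ) ^ lam ≤ (H : ℝ) ^ (1 - lam) * (2 * L) :=
        mul_le_mul_of_nonneg_left hLge (by positivity)
      nlinarith
    have h5 : 1 ≤ (H : ℝ) ^ (1 - lam) := Real.one_le_rpow hH1 (by linarith)
    push_cast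
    push_cast at h1 h2
    calc (D : ℝ) * (((2 * H + 1) / L : ℕ) + 1) ≤ D * (7 * (H : ℝ) ^ (1 - lam)) := by
          apply mul_le_mul_of_nonneg_left _ (by positivity)
          linarith
      _ = 7 * D * (H : ℝ) ^ (1 - lam) := by ring
  calc (((Finset.Icc (-(H : ℤ)) H).filter (fun c => ∃ u ∈ U,
      (R.leadingCoeff.natAbs : ℝ) * (H : ℝ) ^ κ ≤ u ∧
      (u : ℤ) ∣ R.eval c)).card : ℝ)
      ≤ (((U.filter (fun u : ℕ => (R.leadingCoeff.natAbs : ℝ) * (H : ℝ) ^ κ ≤ (u : ℝ))).biUnion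
        (fun u => (Finset.Icc (-(H : ℤ)) H).filter (fun c => (u : ℤ) ∣ R.eval c))).card : ℝ) := by
        exact_mod_cast Finset.card_le_card hsub
    _ ≤ ((U.filter (fun u : ℕ => (R.leadingCoeff.natAbs : ℝ) * (H : ℝ) ^ κ ≤ (u : ℝ))).card *
          (D * ((2 * H + 1) / L + 1)) : ℕ) := by
        exact_mod_cast Finset.card_biUnion_le_card_mul _ _ _ hone
    _ = ((U.filter (fun u : ℕ => (R.leadingCoeff.natAbs : ℝ) * (H : ℝ) ^ κ ≤ (u : ℝ))).card : ℝ) *
          ((D * ((2 * H + 1) / L + 1) : ℕ) : ℝ) := by push_cast; ring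
    _ ≤ U.card * (7 * D * (H : ℝ) ^ (1 - lam)) := by
        apply mul_le_mul _ hbd (by positivity) (by positivity)
        exact_mod_cast Finset.card_filter_le _ _

/-- **The radical lemma** in degree at least two, from its modules. -/
theorem rad2 (hDOM : DomStmt) (hRTC : RtcStmt) (hUCT : UctStmt) (hNCT : NctStmt)
    (hSQC : SqcStmt) (hPWR : PwrStmt) (hSHP : Shp2Stmt) : Rad2Stmt := by
  classical
  intro D B ε₀ δ hD hε₀ hδ
  set ε : ℝ := min ε₀ (1 / 2) with hεdef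
  have hε : 0 < ε := lt_min hε₀ (by norm_num)
  have hε2 : ε ≤ 1 / 2 := min_le_right _ _
  have hε1 : ε < 1 := by linarith
  have hεle : ε ≤ ε₀ := min_le_left _ _
  have hD0 : (2 : ℝ) ≤ D := by exact_mod_cast hD
  obtain ⟨δ', hδ'0, hδ'1, CP, hCP, H1, hP⟩ :=
    hPWR D B (ε / 2) (by omega) (by linarith) (by linarith)
  set lam : ℝ := ε / 4 / ((D : ℝ) * (D + 1)) with hlam
  have hlam0 : 0 < lam := by rw [hlam]; positivity
  set η : ℝ := min (lam / 2) (δ' * ε / 12) with hηdef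
  have hη : 0 < η := lt_min (by linarith) (by positivity)
  have hη1 : η ≤ lam / 2 := min_le_left _ _
  have hη2 : η ≤ δ' * ε / 12 := min_le_right _ _
  set A : ℝ := 2 * B + D + 1 with hA
  have hA0 : 0 < A := by positivity
  obtain ⟨CR, hCR, hRank⟩ := Helper5Frey.rankin_smooth (η := η / A) (by positivity)
  obtain ⟨CD, hCD1, hDom⟩ := hDOM D η hη
  obtain ⟨H2, hS⟩ := hSQC D B (ε / 2) (δ / 6) (by linarith) (by linarith) (by linarith)
  obtain ⟨H3, hSh⟩ := hSHP D B ε hD hε hε1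
  obtain ⟨H4, h4⟩ := pow_small (3 * D) (ε / (16 * D)) (δ / 6) (by positivity) (by linarith)
  obtain ⟨H5, h5⟩ := pow_small (CR * (7 * D)) (lam / 2) (δ / 6) (by positivity) (by linarith)
  obtain ⟨H6, h6⟩ := pow_small (CR * (2 * ((B + D + 1 : ℕ) + 1) * CP * CD * (1 + 1 / η)))
    (δ' * ε / 4) (δ / 6) (by positivity) (by linarith)
  refine ⟨H1 + H2 + H3 + H4 + H5 + H6 + 2, ?_⟩
  intro H hH R K hG
  have hH2 : 2 ≤ H := by omega
  have hH1 : (1 : ℝ) ≤ H := by exact_mod_cast (by omega : 1 ≤ H)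
  have hH0 : (0 : ℝ) < H := by linarith
  have hR0 : R ≠ 0 := by
    intro h
    have h1 := hG.deg
    rw [h, Polynomial.natDegree_zero] at h1
    omega
  have hlc : 1 ≤ R.leadingCoeff.natAbs := by
    have := Polynomial.leadingCoeff_ne_zero.mpr hR0
    omega
  set U : Finset ℕ := (Finset.Icc 1 (H ^ (B + D + 1))).filter
    (fun u => u.primeFactors ⊆ K.primeFactors) with hUdef
  have hUcard : (U.card : ℝ) ≤ CR * (H : ℝ) ^ η := by
    refine (hRank (H ^ (B + D + 1)) K hG.one_le).trans ?_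
    apply mul_le_mul_of_nonneg_left _ hCR.le
    have h1 : ((H ^ (B + D + 1) : ℕ) : ℝ) * K ≤ (H : ℝ) ^ A := by
      have h2 : (K : ℝ) ≤ (H : ℝ) ^ B := by exact_mod_cast hG.le
      calc ((H ^ (B + D + 1) : ℕ) : ℝ) * K ≤ (H : ℝ) ^ (B + D + 1) * (H : ℝ) ^ B := by
            push_cast
            gcongr
        _ = (H : ℝ) ^ A := by
            rw [← pow_add, ← Real.rpow_natCast, hA]
            congr 1
            push_cast
            ring
    calc (((H ^ (B + D + 1) : ℕ) : ℝ) * K) ^ (η / A) ≤ ((H : ℝ) ^ A) ^ (η / A) :=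
          Real.rpow_le_rpow (by positivity) h1 (by positivity)
      _ = (H : ℝ) ^ η := by
          rw [← Real.rpow_mul hH0.le]
          congr 1
          field_simp
  set V : ℕ := ⌊(H : ℝ) ^ (1 - ε / 2)⌋₊ with hVdef
  have hV : (V : ℝ) ≤ (H : ℝ) ^ (1 - ε / 2) := Nat.floor_le (by positivity)
  set ρN : ℝ := (H : ℝ) ^ (1 - ε / (16 * D)) with hρN
  set ρP : ℝ := (H : ℝ) ^ (1 - ε / 2 / 8) with hρP
  have hρN0 : 0 < ρN := by positivity
  have hρN1 : 1 ≤ ρN := by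
    apply Real.one_le_rpow hH1
    have : ε / (16 * D) ≤ 1 := by
      rw [div_le_one (by positivity)]
      linarith
    linarith
  have hρ : ρP ≤ ρN := by
    apply Real.rpow_le_rpow_of_exponent_le hH1
    have : ε / (16 * D) ≤ ε / 2 / 8 := by
      rw [div_div]
      apply div_le_div_of_nonneg_left hε.le (by norm_num)
      linarith
    linarith
  set X : Finset ℤ := Finset.Icc (-(H : ℤ)) H with hX
  set N1 : Finset ℤ := X.filter (fun c => Near R ρN c) with hN1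
  set N2 : Finset ℤ := X.filter (fun c => R.eval c ≠ 0 ∧
      (H : ℝ) ^ (ε / 2) * (smallRad K H (R.eval c).natAbs : ℝ) <
        (smallPart K H (R.eval c).natAbs : ℝ)) with hN2
  set N3 : Finset ℤ := X.filter (fun c => ∃ u ∈ U,
      (R.leadingCoeff.natAbs : ℝ) * (H : ℝ) ^ (ε / 4) ≤ u ∧ (u : ℤ) ∣ R.eval c) with hN3
  set N4 : Finset ℤ := X.filter (fun c => (¬ Near R ρP c) ∧ ∃ u ∈ U, ∃ (v q e : ℕ) (σ : ℤ),
      1 ≤ v ∧ Nat.Coprime v K ∧ v ≤ V ∧ 1 ≤ q ∧ 2 ≤ e ∧ e ≤ B + D + 1 ∧ (σ = 1 ∨ σ = -1) ∧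
        R.eval c = σ * ((u : ℤ) * v) * (q : ℤ) ^ e) with hN4
  have hsub : X.filter (fun c => R.eval c = 0 ∨
      (partRad K (R.eval c).natAbs : ℝ) ≤ (H : ℝ) ^ (2 - ε₀)) ⊆ N1 ∪ N2 ∪ N3 ∪ N4 := by
    intro c hc
    rw [Finset.mem_filter] at hc
    obtain ⟨hcX, hc⟩ := hc
    simp only [Finset.mem_union]
    by_cases hnear : Near R ρN c
    · exact Or.inl (Or.inl (Or.inl (Finset.mem_filter.mpr ⟨hcX, hnear⟩)))
    have hne : R.eval c ≠ 0 := fun h => hnear (near_of_zero hR0 hρN0 h)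
    by_cases hsq : (H : ℝ) ^ (ε / 2) * (smallRad K H (R.eval c).natAbs : ℝ) <
        (smallPart K H (R.eval c).natAbs : ℝ)
    · exact Or.inl (Or.inl (Or.inr (Finset.mem_filter.mpr ⟨hcX, hne, hsq⟩)))
    rw [not_lt] at hsq
    have hpr : (partRad K (R.eval c).natAbs : ℝ) ≤ (H : ℝ) ^ (2 - ε) := by
      rcases hc with h | h
      · exact absurd h hne
      · exact h.trans (Real.rpow_le_rpow_of_exponent_le hH1 (by linarith))
    have hcH : |c| ≤ (H : ℤ) := by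
      rw [hX, Finset.mem_Icc] at hcX
      exact abs_le.mpr hcX
    obtain ⟨u, hu1, huH, huK, hu⟩ :=
      hSh H (by omega) R K hG c hcH hne hnear hsq hpr
    have huU : u ∈ U := Finset.mem_filter.mpr ⟨Finset.mem_Icc.mpr ⟨hu1, huH⟩, huK⟩
    rcases hu with ⟨hud, hul⟩ | ⟨v, q, e, σ, hv1, hvK, hvV, hq1, he2, heE, hσ, heq⟩
    · exact Or.inl (Or.inr (Finset.mem_filter.mpr ⟨hcX, u, huU, hul, hud⟩))
    · refine Or.inr (Finset.mem_filter.mpr ⟨hcX, fun h => hnear (near_mono hρ h), u, huU, v, q, e,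
        σ, hv1, hvK, Nat.le_floor hvV, hq1, he2, heE, hσ, heq⟩)
  -- the four counts
  have c1 : (N1.card : ℝ) ≤ δ / 6 * H := by
    obtain ⟨hfin, hcard⟩ := hNCT R D ρN hG.deg hρN0.le
    have hs1 : (N1 : Set ℤ) ⊆ {c : ℤ | Near R ρN c} := by
      intro c hc
      rw [Finset.mem_coe, hN1, Finset.mem_filter] at hc
      exact hc.2
    have h1 := Set.ncard_le_ncard hs1 hfin
    rw [Set.ncard_coe_finset] at h1
    have h2 : (N1.card : ℝ) ≤ D * (2 * ρN + 1) := le_trans (by exact_mod_cast h1) hcard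
    have h3 := h4 H (by omega)
    calc (N1.card : ℝ) ≤ D * (2 * ρN + 1) := h2
      _ ≤ D * (3 * ρN) := by
          apply mul_le_mul_of_nonneg_left _ (by positivity)
          linarith
      _ = 3 * D * (H : ℝ) ^ (1 - ε / (16 * D)) := by rw [hρN]; ring
      _ ≤ δ / 6 * H := h3
  have c2 : (N2.card : ℝ) ≤ δ / 6 * H := by
    have h1 := hS H (by omega) R K hG
    rwa [ncard_box] at h1
  have c3 : (N3.card : ℝ) ≤ δ / 6 * H := by
    have h1 := union_one2 hUCT R D H hG.deg (by omega) hlc hH2 U (ε / 4) lam (by linarith)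
      (by linarith) hlam
    have h3 := h5 H (by omega)
    calc (N3.card : ℝ) ≤ U.card * (7 * D * (H : ℝ) ^ (1 - lam)) := by
          rw [hN3]
          convert h1
      _ ≤ (CR * (H : ℝ) ^ η) * (7 * D * (H : ℝ) ^ (1 - lam)) := by
          apply mul_le_mul_of_nonneg_right hUcard (by positivity)
      _ = CR * (7 * D) * (H : ℝ) ^ (η + (1 - lam)) := by
          rw [Real.rpow_add hH0 η (1 - lam)]
          ring
      _ ≤ CR * (7 * D) * (H : ℝ) ^ (1 - lam / 2) := by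
          apply mul_le_mul_of_nonneg_left _ (by positivity)
          apply Real.rpow_le_rpow_of_exponent_le hH1
          linarith
      _ ≤ δ / 6 * H := h3
  have c4 : (N4.card : ℝ) ≤ δ / 6 * H := by
    have h1 := union_two R K D H (B + D + 1) V hRTC hG.deg hG.loc U (fun c => ¬ Near R ρP c)
      η δ' ε CP CD (by omega) hη hδ'0 hε hε1 hCP hCD1 hDom hV
      (fun u hu => (Finset.mem_Icc.mp (Finset.mem_filter.mp hu).1).1)
      (fun b c₀ v e hb hv1 hvV he2 heE => hP H (by omega) R hG.deg hG.coef hG.sep b c₀ v e hb hv1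
        (le_trans (by exact_mod_cast hvV) hV) he2 heE)
    have h3 := h6 H (by omega)
    calc (N4.card : ℝ) ≤ U.card * (2 * ((B + D + 1 : ℕ) + 1) * CP * CD *
            ((1 + 1 / η) * (H : ℝ) ^ (1 - δ' * ε / 2 + 2 * η))) := by
          rw [hN4]
          convert h1
      _ ≤ (CR * (H : ℝ) ^ η) * (2 * ((B + D + 1 : ℕ) + 1) * CP * CD *
            ((1 + 1 / η) * (H : ℝ) ^ (1 - δ' * ε / 2 + 2 * η))) := by
          apply mul_le_mul_of_nonneg_right hUcard (by positivity)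
      _ = CR * (2 * ((B + D + 1 : ℕ) + 1) * CP * CD * (1 + 1 / η)) *
            (H : ℝ) ^ (η + (1 - δ' * ε / 2 + 2 * η)) := by
          rw [Real.rpow_add hH0 η (1 - δ' * ε / 2 + 2 * η)]
          ring
      _ ≤ CR * (2 * ((B + D + 1 : ℕ) + 1) * CP * CD * (1 + 1 / η)) *
            (H : ℝ) ^ (1 - δ' * ε / 4) := by
          apply mul_le_mul_of_nonneg_left _ (by positivity)
          apply Real.rpow_le_rpow_of_exponent_le hH1
          linarith
      _ ≤ δ / 6 * H := h3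
  rw [ncard_box]
  calc ((X.filter (fun c => R.eval c = 0 ∨
      (partRad K (R.eval c).natAbs : ℝ) ≤ (H : ℝ) ^ (2 - ε₀))).card : ℝ)
      ≤ ((N1 ∪ N2 ∪ N3 ∪ N4).card : ℝ) := by exact_mod_cast Finset.card_le_card hsub
    _ ≤ (N1.card + N2.card + N3.card + N4.card : ℕ) := by
        have a1 := Finset.card_union_le (N1 ∪ N2 ∪ N3) N4
        have a2 := Finset.card_union_le (N1 ∪ N2) N3
        have a3 := Finset.card_union_le N1 N2
        exact_mod_cast (by omega)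
    _ = (N1.card : ℝ) + N2.card + N3.card + N4.card := by push_cast; ring
    _ ≤ δ / 6 * H + δ / 6 * H + δ / 6 * H + δ / 6 * H := by linarith
    _ ≤ δ * H := by nlinarith

end Pool.Agent.RAD
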