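import Pool.Agent.Helper94_Rad.SHP2
import Pool.Agent.Helper94_Rad.RAD2
import Pool.Agent.Helper79_Rad.DOM
import Pool.Agent.Helper79_Rad.PRM
import Pool.Agent.Helper81_RAD.Nlb
import Pool.Agent.Helper17_Rad.NCT
import Pool.Agent.Helper18_Rad.RTC
import Pool.Agent.Helper18_Rad.UCT
import Pool.Agent.Helper23_Rad.SQC
import Pool.Agent.Helper23_Rad.PWR
import Pool.Agent.Helper41_Rad.SQS
import Pool.Agent.Helper51_Rad.Apx
import Pool.Agent.Helper51_Rad.Int

/-!
# The radical lemma
-/

namespace Pool.Agent.RAD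

theorem radical_lemma_of_int (hINT : IntStmt) : Rad2Stmt :=
  rad2 H79.dom H18.rtc H18.uct H17.nct (H23.sqc H79.prm H79.dom H18.rtc H41.sqs)
    (H23.pwr hINT) (shp2 H81.nlb)

/-- **The radical lemma**, unconditionally. -/
theorem radical_lemma : Rad2Stmt := radical_lemma_of_int (H51.int H51.apx)

end Pool.Agent.RAD
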