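import Pool.Agent.Helper5_Frey.Rankin

/-!
# Definitions for the radical lemma

For a polynomial `R` with integer coefficients of degree `D ≥ 4` and `K ≥ 1` such that `R` is
separable modulo all primes not dividing `K`, the product of the primes not dividing `K` which
divide `R c` is at least `H ^ (2 - ε)` for almost all `|c| ≤ H`.
-/

namespace Pool.Agent.RAD

open Polynomial

/-- Outside `K` the reduction of `R` keeps its degree and has no multiple integer root. -/
def Loc (R : ℤ[X]) (K : ℕ) : Prop :=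
  ∀ p : ℕ, p.Prime → ¬ p ∣ K → ¬ ((p : ℤ) ∣ R.leadingCoeff) ∧
    ∀ c : ℤ, (p : ℤ) ∣ R.eval c → ¬ ((p : ℤ) ∣ (derivative R).eval c)

/-- The standing hypotheses. -/
structure Good (D B H : ℕ) (R : ℤ[X]) (K : ℕ) : Prop where
  deg : R.natDegree = D
  coef : ∀ i, |R.coeff i| ≤ (H : ℤ) ^ B
  one_le : 1 ≤ K
  le : K ≤ H ^ B
  sep : (R.map (Int.castRingHom ℚ)).Separable
  loc : Loc R K

/-- The integer `c` is at distance less than `ρ` from a complex root of `R`. -/
def Near (R : ℤ[X]) (ρ : ℝ) (c : ℤ) : Prop :=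
  ∃ α ∈ (R.map (Int.castRingHom ℂ)).roots, ‖(c : ℂ) - α‖ < ρ

/-- The primes `p ≤ H` which divide `m` and do not divide `K`. -/
def smallPrimes (K H m : ℕ) : Finset ℕ :=
  m.primeFactors.filter (fun p => ¬ p ∣ K ∧ p ≤ H)

/-- The part of `m` composed of the primes `p ≤ H`, `p` not dividing `K`. -/
def smallPart (K H m : ℕ) : ℕ := ∏ p ∈ smallPrimes K H m, p ^ m.factorization p

/-- The product of the primes in `smallPrimes`. -/
def smallRad (K H m : ℕ) : ℕ := ∏ p ∈ smallPrimes K H m, p

end Pool.Agent.RAD
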