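import Pool.Agent.Helper94_Rad.RadAux

/-!
# RAD: the assembly of the radical lemma
-/

namespace Pool.Agent.RAD

open Polynomial Finset
open Helper5Frey (partRad)

lemma pow_small (M κ δ : ℝ) (hκ : 0 < κ) (hδ : 0 < δ) :
    ∃ H₀ : ℕ, ∀ H : ℕ, H₀ ≤ H → M * (H : ℝ) ^ (1 - κ) ≤ δ * H := by
  obtain ⟨N, hN⟩ := exists_nat_ge ((|M| / δ) ^ (1 / κ))
  refine ⟨max N 1, fun H hH => ?_⟩
  have hH1 : (1 : ℝ) ≤ H := by exact_mod_cast le_trans (le_max_right _ _) hH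
  have hH0 : (0 : ℝ) < H := by linarith
  have hNH : (N : ℝ) ≤ H := by exact_mod_cast le_trans (le_max_left _ _) hH
  have h1 : |M| / δ ≤ (H : ℝ) ^ κ := by
    calc |M| / δ = ((|M| / δ) ^ (1 / κ)) ^ κ := by
          rw [← Real.rpow_mul (by positivity), one_div_mul_cancel hκ.ne', Real.rpow_one]
      _ ≤ (H : ℝ) ^ κ := Real.rpow_le_rpow (by positivity) (hN.trans hNH) hκ.le
  have h2 : |M| ≤ δ * (H : ℝ) ^ κ := by
    rw [div_le_iff₀ hδ] at h1
    linarith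
  have h3 : (H : ℝ) ^ κ * (H : ℝ) ^ (1 - κ) = H := by
    rw [← Real.rpow_add hH0]
    simp
  calc M * (H : ℝ) ^ (1 - κ) ≤ |M| * (H : ℝ) ^ (1 - κ) :=
        mul_le_mul_of_nonneg_right (le_abs_self M) (by positivity)
    _ ≤ (δ * (H : ℝ) ^ κ) * (H : ℝ) ^ (1 - κ) :=
        mul_le_mul_of_nonneg_right h2 (by positivity)
    _ = δ * H := by rw [mul_assoc, h3]

/-- The union over `u` of the sets of UCT. -/
lemma union_one (hUCT : UctStmt) (R : ℤ[X]) (D H : ℕ) (hR : R.natDegree = D) (hD : 1 ≤ D)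
    (hlc : 1 ≤ R.leadingCoeff.natAbs) (hH : 2 ≤ H) (U : Finset ℕ) (lam : ℝ)
    (hlam : lam = 1 / ((D : ℝ) * (D + 1))) :
    (((Finset.Icc (-(H : ℤ)) H).filter (fun c => ∃ u ∈ U, R.leadingCoeff.natAbs * H ≤ u ∧
      (u : ℤ) ∣ R.eval c)).card : ℝ) ≤ U.card * (7 * D * (H : ℝ) ^ (1 - lam)) := by
  classical
  have hD0 : (1 : ℝ) ≤ D := by exact_mod_cast hD
  have hlam0 : 0 < lam := by rw [hlam]; positivity
  have hlam1 : lam ≤ 1 := by
    rw [hlam, div_le_one (by positivity)]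
    nlinarith
  have hH1 : (1 : ℝ) ≤ H := by exact_mod_cast (by omega : 1 ≤ H)
  have hH0 : (0 : ℝ) < H := by linarith
  set L : ℕ := ⌊(H : ℝ) ^ lam⌋₊ with hL
  have hx1 : 1 ≤ (H : ℝ) ^ lam := Real.one_le_rpow hH1 hlam0.le
  have hL1 : 1 ≤ L := Nat.le_floor (by simpa using hx1)
  have hLle : (L : ℝ) ≤ (H : ℝ) ^ lam := Nat.floor_le (by positivity)
  have hLge : (H : ℝ) ^ lam ≤ 2 * L := by
    have h1 : (H : ℝ) ^ lam < L + 1 := Nat.lt_floor_add_one _
    have h2 : (1 : ℝ) ≤ L := by exact_mod_cast hL1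
    linarith
  have hLpow : L ^ (D * (D + 1) / 2) < H := by
    have h1 : ((L ^ (D * (D + 1) / 2) : ℕ) : ℝ) ≤ (H : ℝ) ^ ((1 : ℝ) / 2) := by
      push_cast
      calc (L : ℝ) ^ (D * (D + 1) / 2) ≤ ((H : ℝ) ^ lam) ^ (D * (D + 1) / 2) :=
            pow_le_pow_left₀ (by positivity) hLle _
        _ = (H : ℝ) ^ (lam * ((D * (D + 1) / 2 : ℕ) : ℝ)) := by
            rw [← Real.rpow_natCast, ← Real.rpow_mul hH0.le]
        _ ≤ (H : ℝ) ^ ((1 : ℝ) / 2) := by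
            apply Real.rpow_le_rpow_of_exponent_le hH1
            have h2 : ((D * (D + 1) / 2 : ℕ) : ℝ) ≤ ((D * (D + 1) : ℕ) : ℝ) / 2 := by
              exact_mod_cast Nat.cast_div_le (α := ℝ) (m := D * (D + 1)) (n := 2)
            calc lam * ((D * (D + 1) / 2 : ℕ) : ℝ) ≤ lam * (((D * (D + 1) : ℕ) : ℝ) / 2) :=
                  mul_le_mul_of_nonneg_left h2 hlam0.le
              _ = 1 / 2 := by
                  rw [hlam]
                  push_cast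
                  field_simp
    have h3 : (H : ℝ) ^ ((1 : ℝ) / 2) < H := by
      calc (H : ℝ) ^ ((1 : ℝ) / 2) < (H : ℝ) ^ (1 : ℝ) := by
            apply Real.rpow_lt_rpow_of_exponent_lt _ (by norm_num)
            exact_mod_cast (by omega : 1 < H)
        _ = H := Real.rpow_one _
    exact_mod_cast lt_of_le_of_lt h1 h3
  have hsub : (Finset.Icc (-(H : ℤ)) H).filter (fun c => ∃ u ∈ U,
      R.leadingCoeff.natAbs * H ≤ u ∧ (u : ℤ) ∣ R.eval c) ⊆
      (U.filter (fun u => R.leadingCoeff.natAbs * H ≤ u)).biUnion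
        (fun u => (Finset.Icc (-(H : ℤ)) H).filter (fun c => (u : ℤ) ∣ R.eval c)) := by
    intro c hc
    rw [Finset.mem_filter] at hc
    obtain ⟨hc1, u, huU, hu1, hu2⟩ := hc
    rw [Finset.mem_biUnion]
    exact ⟨u, Finset.mem_filter.mpr ⟨huU, hu1⟩, Finset.mem_filter.mpr ⟨hc1, hu2⟩⟩
  have hone : ∀ u ∈ U.filter (fun u => R.leadingCoeff.natAbs * H ≤ u),
      ((Finset.Icc (-(H : ℤ)) H).filter (fun c => (u : ℤ) ∣ R.eval c)).card ≤
        D * ((2 * H + 1) / L + 1) := by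
    intro u hu
    rw [Finset.mem_filter] at hu
    have h1 := hUCT R D L H u hR hD hL1 (lt_of_lt_of_le
      (Nat.mul_lt_mul_of_pos_left hLpow (by omega)) hu.2)
    rwa [ncard_box] at h1
  have hbd : ((D * ((2 * H + 1) / L + 1) : ℕ) : ℝ) ≤ 7 * D * (H : ℝ) ^ (1 - lam) := by
    have hL0 : (0 : ℝ) < L := by exact_mod_cast hL1
    have h1 : (((2 * H + 1) / L : ℕ) : ℝ) ≤ ((2 * H + 1 : ℕ) : ℝ) / L := Nat.cast_div_le
    have h2 : ((2 * H + 1 : ℕ) : ℝ) / L ≤ 6 * (H : ℝ) ^ (1 - lam) := by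
      rw [div_le_iff₀ hL0]
      have h3 : (H : ℝ) ^ (1 - lam) * (H : ℝ) ^ lam = H := by
        rw [← Real.rpow_add hH0]
        simp
      push_cast
      have h4 : (H : ℝ) ^ (1 - lam) * (H : ℝ) ^ lam ≤ (H : ℝ) ^ (1 - lam) * (2 * L) :=
        mul_le_mul_of_nonneg_left hLge (by positivity)
      nlinarith
    have h5 : 1 ≤ (H : ℝ) ^ (1 - lam) := Real.one_le_rpow hH1 (by linarith)
    push_cast
    push_cast at h1 h2
    calc (D : ℝ) * (((2 * H + 1) / L : ℕ) + 1) ≤ D * (7 * (H : ℝ) ^ (1 - lam)) := by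
          apply mul_le_mul_of_nonneg_left _ (by positivity)
          linarith
      _ = 7 * D * (H : ℝ) ^ (1 - lam) := by ring
  calc (((Finset.Icc (-(H : ℤ)) H).filter (fun c => ∃ u ∈ U, R.leadingCoeff.natAbs * H ≤ u ∧
      (u : ℤ) ∣ R.eval c)).card : ℝ)
      ≤ (((U.filter (fun u => R.leadingCoeff.natAbs * H ≤ u)).biUnion
        (fun u => (Finset.Icc (-(H : ℤ)) H).filter (fun c => (u : ℤ) ∣ R.eval c))).card : ℝ) := by
        exact_mod_cast Finset.card_le_card hsub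
    _ ≤ ((U.filter (fun u => R.leadingCoeff.natAbs * H ≤ u)).card *
          (D * ((2 * H + 1) / L + 1)) : ℕ) := by
        exact_mod_cast Finset.card_biUnion_le_card_mul _ _ _ hone
    _ = ((U.filter (fun u => R.leadingCoeff.natAbs * H ≤ u)).card : ℝ) *
          ((D * ((2 * H + 1) / L + 1) : ℕ) : ℝ) := by push_cast; ring
    _ ≤ U.card * (7 * D * (H : ℝ) ^ (1 - lam)) := by
        apply mul_le_mul _ hbd (by positivity) (by positivity)
        exact_mod_cast Finset.card_filter_le _ _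

open scoped Classical in
/-- The union over `u`, `v`, the residue classes, the exponents and the signs. -/
lemma union_two (R : ℤ[X]) (K D H E V : ℕ) (hRTC : RtcStmt)
    (hR : R.natDegree = D) (hloc : Loc R K) (U : Finset ℕ) (P : ℤ → Prop)
    (η δ' ε CP CD : ℝ) (hH : 1 ≤ H) (hη : 0 < η) (hδ' : 0 < δ') (hε : 0 < ε) (hε1 : ε < 1)
    (hCP : 0 < CP) (hCD : 1 ≤ CD)
    (hDom : ∀ v : ℕ, 1 ≤ v → ((D : ℝ) ^ v.primeFactors.card) ≤ CD * (v : ℝ) ^ η)
    (hV : (V : ℝ) ≤ (H : ℝ) ^ (1 - ε / 2)) (hU : ∀ u ∈ U, 1 ≤ u)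
    (hP : ∀ (b c₀ : ℤ) (v e : ℕ), b ≠ 0 → 1 ≤ v → v ≤ V → 2 ≤ e → e ≤ E →
      ({c : ℤ | |c| ≤ (H : ℤ) ∧ c ≡ c₀ [ZMOD v] ∧ P c ∧
        ∃ q : ℕ, 1 ≤ q ∧ R.eval c = b * (q : ℤ) ^ e}.ncard : ℝ) ≤
          CP * ((H : ℝ) / v) ^ (1 - δ')) :
    (((Finset.Icc (-(H : ℤ)) H).filter (fun c => P c ∧ ∃ u ∈ U, ∃ (v q e : ℕ) (σ : ℤ),
      1 ≤ v ∧ Nat.Coprime v K ∧ v ≤ V ∧ 1 ≤ q ∧ 2 ≤ e ∧ e ≤ E ∧ (σ = 1 ∨ σ = -1) ∧
        R.eval c = σ * ((u : ℤ) * v) * (q : ℤ) ^ e)).card : ℝ) ≤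
      U.card * (2 * (E + 1) * CP * CD * ((1 + 1 / η) * (H : ℝ) ^ (1 - δ' * ε / 2 + 2 * η))) := by
  classical
  -- residue classes
  have hres : ∀ v : ℕ, ∃ s : Finset ℤ, (1 ≤ v → Nat.Coprime v K →
      s.card ≤ D ^ v.primeFactors.card ∧
      ∀ c : ℤ, (v : ℤ) ∣ R.eval c → ∃ c₀ ∈ s, c ≡ c₀ [ZMOD v]) ∧
      (1 ≤ v → s.card ≤ D ^ v.primeFactors.card) := by
    intro v
    by_cases h : 1 ≤ v ∧ Nat.Coprime v K
    · obtain ⟨s, hs1, hs2⟩ := hRTC R K D hR hloc v h.1 h.2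
      exact ⟨s, fun _ _ => ⟨hs1, hs2⟩, fun _ => hs1⟩
    · refine ⟨∅, fun h1 h2 => absurd ⟨h1, h2⟩ h, fun _ => by simp⟩
  choose s hs hs' using hres
  set W : ℕ → ℕ → ℕ → ℤ → ℤ → Finset ℤ := fun u v e σ c₀ =>
    (Finset.Icc (-(H : ℤ)) H).filter (fun c => c ≡ c₀ [ZMOD v] ∧ P c ∧
      ∃ q : ℕ, 1 ≤ q ∧ R.eval c = (σ * ((u : ℤ) * v)) * (q : ℤ) ^ e) with hW
  have hWcard : ∀ u ∈ U, ∀ v ∈ Finset.Icc 1 V, ∀ e ∈ Finset.Icc 2 E, ∀ σ ∈ ({1, -1} : Finset ℤ),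
      ∀ c₀ : ℤ, ((W u v e σ c₀).card : ℝ) ≤ CP * ((H : ℝ) / v) ^ (1 - δ') := by
    intro u hu v hv e he σ hσ c₀
    rw [Finset.mem_Icc] at hv he
    have hu1 := hU u hu
    have hσ0 : σ ≠ 0 := by
      simp only [Finset.mem_insert, Finset.mem_singleton] at hσ
      rcases hσ with h | h <;> rw [h] <;> norm_num
    have hb : σ * ((u : ℤ) * v) ≠ 0 := by
      apply mul_ne_zero hσ0
      apply mul_ne_zero <;> exact_mod_cast (by omega)
    have := hP (σ * ((u : ℤ) * v)) c₀ v e hb hv.1 hv.2 he.1 he.2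
    rwa [ncard_box] at this
  have hsub : (Finset.Icc (-(H : ℤ)) H).filter (fun c => P c ∧ ∃ u ∈ U,
      ∃ (v q e : ℕ) (σ : ℤ), 1 ≤ v ∧ Nat.Coprime v K ∧ v ≤ V ∧ 1 ≤ q ∧ 2 ≤ e ∧ e ≤ E ∧
        (σ = 1 ∨ σ = -1) ∧ R.eval c = σ * ((u : ℤ) * v) * (q : ℤ) ^ e) ⊆
      U.biUnion (fun u => (Finset.Icc 1 V).biUnion (fun v => (Finset.Icc 2 E).biUnion (fun e =>
        ({1, -1} : Finset ℤ).biUnion (fun σ => (s v).biUnion (fun c₀ => W u v e σ c₀))))) := by
    intro c hc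
    rw [Finset.mem_filter] at hc
    obtain ⟨hc1, hcP, u, huU, v, q, e, σ, hv1, hvK, hvV, hq1, he2, heE, hσ, heq⟩ := hc
    obtain ⟨-, hcl⟩ := hs v hv1 hvK
    have hdvd : (v : ℤ) ∣ R.eval c := by
      rw [heq]
      exact ⟨σ * u * (q : ℤ) ^ e, by ring⟩
    obtain ⟨c₀, hc₀, hcc⟩ := hcl c hdvd
    simp only [Finset.mem_biUnion]
    refine ⟨u, huU, v, Finset.mem_Icc.mpr ⟨hv1, hvV⟩, e, Finset.mem_Icc.mpr ⟨he2, heE⟩, σ, ?_,
      c₀, hc₀, ?_⟩
    · simp only [Finset.mem_insert, Finset.mem_singleton]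
      exact hσ
    · rw [hW]
      exact Finset.mem_filter.mpr ⟨hc1, hcc, hcP, q, hq1, heq⟩
  have hinner : ∀ u ∈ U, ∀ v ∈ Finset.Icc 1 V, ∀ e ∈ Finset.Icc 2 E,
      ∀ σ ∈ ({1, -1} : Finset ℤ), (((s v).biUnion (fun c₀ => W u v e σ c₀)).card : ℝ) ≤
        CP * CD * ((v : ℝ) ^ η * ((H : ℝ) / v) ^ (1 - δ')) := by
    intro u hu v hv e he σ hσ
    have hv1 : 1 ≤ v := (Finset.mem_Icc.mp hv).1
    calc (((s v).biUnion (fun c₀ => W u v e σ c₀)).card : ℝ)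
        ≤ ∑ c₀ ∈ s v, ((W u v e σ c₀).card : ℝ) := by exact_mod_cast Finset.card_biUnion_le
      _ ≤ ∑ c₀ ∈ s v, CP * ((H : ℝ) / v) ^ (1 - δ') :=
          Finset.sum_le_sum (fun c₀ _ => hWcard u hu v hv e he σ hσ c₀)
      _ = ((s v).card : ℝ) * (CP * ((H : ℝ) / v) ^ (1 - δ')) := by
          rw [Finset.sum_const, nsmul_eq_mul]
      _ ≤ (CD * (v : ℝ) ^ η) * (CP * ((H : ℝ) / v) ^ (1 - δ')) := by
          apply mul_le_mul_of_nonneg_right _ (by positivity)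
          refine le_trans ?_ (hDom v hv1)
          exact_mod_cast hs' v hv1
      _ = CP * CD * ((v : ℝ) ^ η * ((H : ℝ) / v) ^ (1 - δ')) := by ring
  have hperu : ∀ u ∈ U, (((Finset.Icc 1 V).biUnion (fun v => (Finset.Icc 2 E).biUnion (fun e =>
        ({1, -1} : Finset ℤ).biUnion (fun σ => (s v).biUnion (fun c₀ => W u v e σ c₀))))).card : ℝ)
      ≤ 2 * (E + 1) * CP * CD * ((1 + 1 / η) * (H : ℝ) ^ (1 - δ' * ε / 2 + 2 * η)) := by
    intro u hu
    have hsig : ∀ v ∈ Finset.Icc 1 V, ∀ e ∈ Finset.Icc 2 E,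
        ((({1, -1} : Finset ℤ).biUnion (fun σ => (s v).biUnion (fun c₀ => W u v e σ c₀))).card : ℝ)
          ≤ 2 * (CP * CD * ((v : ℝ) ^ η * ((H : ℝ) / v) ^ (1 - δ'))) := by
      intro v hv e he
      calc ((({1, -1} : Finset ℤ).biUnion
              (fun σ => (s v).biUnion (fun c₀ => W u v e σ c₀))).card : ℝ)
          ≤ ∑ σ ∈ ({1, -1} : Finset ℤ), (((s v).biUnion (fun c₀ => W u v e σ c₀)).card : ℝ) := by
            exact_mod_cast Finset.card_biUnion_le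
        _ ≤ ∑ σ ∈ ({1, -1} : Finset ℤ), CP * CD * ((v : ℝ) ^ η * ((H : ℝ) / v) ^ (1 - δ')) :=
            Finset.sum_le_sum (fun σ hσ => hinner u hu v hv e he σ hσ)
        _ = 2 * (CP * CD * ((v : ℝ) ^ η * ((H : ℝ) / v) ^ (1 - δ'))) := by
            rw [Finset.sum_const, nsmul_eq_mul]
            norm_num
    have hexp : ∀ v ∈ Finset.Icc 1 V, (((Finset.Icc 2 E).biUnion (fun e =>
        ({1, -1} : Finset ℤ).biUnion (fun σ => (s v).biUnion (fun c₀ => W u v e σ c₀)))).card : ℝ)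
          ≤ (E + 1) * (2 * (CP * CD * ((v : ℝ) ^ η * ((H : ℝ) / v) ^ (1 - δ')))) := by
      intro v hv
      calc (((Finset.Icc 2 E).biUnion (fun e => ({1, -1} : Finset ℤ).biUnion
              (fun σ => (s v).biUnion (fun c₀ => W u v e σ c₀)))).card : ℝ)
          ≤ ∑ e ∈ Finset.Icc 2 E, ((({1, -1} : Finset ℤ).biUnion
              (fun σ => (s v).biUnion (fun c₀ => W u v e σ c₀))).card : ℝ) := by
            exact_mod_cast Finset.card_biUnion_le
        _ ≤ ∑ e ∈ Finset.Icc 2 E, 2 * (CP * CD * ((v : ℝ) ^ η * ((H : ℝ) / v) ^ (1 - δ'))) :=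
            Finset.sum_le_sum (fun e he => hsig v hv e he)
        _ = ((Finset.Icc 2 E).card : ℝ) *
              (2 * (CP * CD * ((v : ℝ) ^ η * ((H : ℝ) / v) ^ (1 - δ')))) := by
            rw [Finset.sum_const, nsmul_eq_mul]
        _ ≤ (E + 1) * (2 * (CP * CD * ((v : ℝ) ^ η * ((H : ℝ) / v) ^ (1 - δ')))) := by
            apply mul_le_mul_of_nonneg_right _ (by positivity)
            have : (Finset.Icc 2 E).card ≤ E + 1 := by rw [Nat.card_Icc]; omega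
            exact_mod_cast this
    calc (((Finset.Icc 1 V).biUnion (fun v => (Finset.Icc 2 E).biUnion (fun e =>
        ({1, -1} : Finset ℤ).biUnion (fun σ => (s v).biUnion (fun c₀ => W u v e σ c₀))))).card : ℝ)
        ≤ ∑ v ∈ Finset.Icc 1 V, (((Finset.Icc 2 E).biUnion (fun e => ({1, -1} : Finset ℤ).biUnion
              (fun σ => (s v).biUnion (fun c₀ => W u v e σ c₀)))).card : ℝ) := by
          exact_mod_cast Finset.card_biUnion_le
      _ ≤ ∑ v ∈ Finset.Icc 1 V,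
            (E + 1) * (2 * (CP * CD * ((v : ℝ) ^ η * ((H : ℝ) / v) ^ (1 - δ')))) :=
          Finset.sum_le_sum hexp
      _ = 2 * (E + 1) * CP * CD *
            ∑ v ∈ Finset.Icc 1 V, (v : ℝ) ^ η * ((H : ℝ) / v) ^ (1 - δ') := by
          rw [Finset.mul_sum]
          apply Finset.sum_congr rfl
          intro v _
          ring
      _ ≤ 2 * (E + 1) * CP * CD * ((1 + 1 / η) * (H : ℝ) ^ (1 - δ' * ε / 2 + 2 * η)) := by
          apply mul_le_mul_of_nonneg_left _ (by positivity)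
          exact sum_moduli H V hH ε δ' η hδ' hη hV hε hε1
  calc _ ≤ ((U.biUnion (fun u => (Finset.Icc 1 V).biUnion (fun v => (Finset.Icc 2 E).biUnion
        (fun e => ({1, -1} : Finset ℤ).biUnion
          (fun σ => (s v).biUnion (fun c₀ => W u v e σ c₀)))))).card : ℝ) := by
        exact_mod_cast Finset.card_le_card hsub
    _ ≤ ∑ u ∈ U, (((Finset.Icc 1 V).biUnion (fun v => (Finset.Icc 2 E).biUnion (fun e =>
        ({1, -1} : Finset ℤ).biUnion
          (fun σ => (s v).biUnion (fun c₀ => W u v e σ c₀))))).card : ℝ) := by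
        exact_mod_cast Finset.card_biUnion_le
    _ ≤ ∑ u ∈ U, 2 * (E + 1) * CP * CD *
          ((1 + 1 / η) * (H : ℝ) ^ (1 - δ' * ε / 2 + 2 * η)) := Finset.sum_le_sum hperu
    _ = _ := by rw [Finset.sum_const, nsmul_eq_mul]

lemma near_mono {R : ℤ[X]} {ρ ρ' : ℝ} (h : ρ ≤ ρ') {c : ℤ} (hc : Near R ρ c) : Near R ρ' c := by
  obtain ⟨α, hα, h1⟩ := hc
  exact ⟨α, hα, lt_of_lt_of_le h1 h⟩

lemma near_of_zero {R : ℤ[X]} (hR : R ≠ 0) {ρ : ℝ} (hρ : 0 < ρ) {c : ℤ} (hc : R.eval c = 0) :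
    Near R ρ c := by
  refine ⟨(c : ℂ), ?_, by simpa using hρ⟩
  rw [Polynomial.mem_roots ((Polynomial.map_ne_zero_iff (RingHom.injective_int _)).mpr hR)]
  have h1 := Polynomial.eval₂_at_apply (p := R) (Int.castRingHom ℂ) c
  rw [Polynomial.IsRoot, Polynomial.eval_map]
  rw [hc] at h1
  simpa using h1

/-- **The radical lemma**, from its modules. -/
theorem rad (hDOM : DomStmt) (hRTC : RtcStmt) (hUCT : UctStmt) (hNCT : NctStmt)
    (hSQC : SqcStmt) (hPWR : PwrStmt) (hSHP : ShpStmt) : RadStmt := by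
  classical
  intro D B ε₀ δ hD hε₀ hδ
  set ε : ℝ := min ε₀ (1 / 2) with hεdef
  have hε : 0 < ε := lt_min hε₀ (by norm_num)
  have hε2 : ε ≤ 1 / 2 := min_le_right _ _
  have hε1 : ε < 1 := by linarith
  have hεle : ε ≤ ε₀ := min_le_left _ _
  have hD0 : (4 : ℝ) ≤ D := by exact_mod_cast hD
  obtain ⟨δ', hδ'0, hδ'1, CP, hCP, H1, hP⟩ :=
    hPWR D B (ε / 2) (by omega) (by linarith) (by linarith)
  set lam : ℝ := 1 / ((D : ℝ) * (D + 1)) with hlam
  have hlam0 : 0 < lam := by rw [hlam]; positivity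
  set η : ℝ := min (lam / 2) (δ' * ε / 12) with hηdef
  have hη : 0 < η := lt_min (by linarith) (by positivity)
  have hη1 : η ≤ lam / 2 := min_le_left _ _
  have hη2 : η ≤ δ' * ε / 12 := min_le_right _ _
  set A : ℝ := 2 * B + D + 1 with hA
  have hA0 : 0 < A := by positivity
  obtain ⟨CR, hCR, hRank⟩ := Helper5Frey.rankin_smooth (η := η / A) (by positivity)
  obtain ⟨CD, hCD1, hDom⟩ := hDOM D η hη
  obtain ⟨H2, hS⟩ := hSQC D B (ε / 2) (δ / 6) (by linarith) (by linarith) (by linarith)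
  obtain ⟨H3, hSh⟩ := hSHP D B ε hD hε hε1
  obtain ⟨H4, h4⟩ := pow_small (3 * D) (ε / (16 * D)) (δ / 6) (by positivity) (by linarith)
  obtain ⟨H5, h5⟩ := pow_small (CR * (7 * D)) (lam / 2) (δ / 6) (by positivity) (by linarith)
  obtain ⟨H6, h6⟩ := pow_small (CR * (2 * ((B + D + 1 : ℕ) + 1) * CP * CD * (1 + 1 / η)))
    (δ' * ε / 4) (δ / 6) (by positivity) (by linarith)
  refine ⟨H1 + H2 + H3 + H4 + H5 + H6 + 2, ?_⟩
  intro H hH R K hG
  have hH2 : 2 ≤ H := by omega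
  have hH1 : (1 : ℝ) ≤ H := by exact_mod_cast (by omega : 1 ≤ H)
  have hH0 : (0 : ℝ) < H := by linarith
  have hR0 : R ≠ 0 := by
    intro h
    have h1 := hG.deg
    rw [h, Polynomial.natDegree_zero] at h1
    omega
  have hlc : 1 ≤ R.leadingCoeff.natAbs := by
    have := Polynomial.leadingCoeff_ne_zero.mpr hR0
    omega
  set U : Finset ℕ := (Finset.Icc 1 (H ^ (B + D + 1))).filter
    (fun u => u.primeFactors ⊆ K.primeFactors) with hUdef
  have hUcard : (U.card : ℝ) ≤ CR * (H : ℝ) ^ η := by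
    refine (hRank (H ^ (B + D + 1)) K hG.one_le).trans ?_
    apply mul_le_mul_of_nonneg_left _ hCR.le
    have h1 : ((H ^ (B + D + 1) : ℕ) : ℝ) * K ≤ (H : ℝ) ^ A := by
      have h2 : (K : ℝ) ≤ (H : ℝ) ^ B := by exact_mod_cast hG.le
      calc ((H ^ (B + D + 1) : ℕ) : ℝ) * K ≤ (H : ℝ) ^ (B + D + 1) * (H : ℝ) ^ B := by
            push_cast
            gcongr
        _ = (H : ℝ) ^ A := by
            rw [← pow_add, ← Real.rpow_natCast, hA]
            congr 1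
            push_cast
            ring
    calc (((H ^ (B + D + 1) : ℕ) : ℝ) * K) ^ (η / A) ≤ ((H : ℝ) ^ A) ^ (η / A) :=
          Real.rpow_le_rpow (by positivity) h1 (by positivity)
      _ = (H : ℝ) ^ η := by
          rw [← Real.rpow_mul hH0.le]
          congr 1
          field_simp
  set V : ℕ := ⌊(H : ℝ) ^ (1 - ε / 2)⌋₊ with hVdef
  have hV : (V : ℝ) ≤ (H : ℝ) ^ (1 - ε / 2) := Nat.floor_le (by positivity)
  set ρN : ℝ := (H : ℝ) ^ (1 - ε / (16 * D)) with hρN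
  set ρP : ℝ := (H : ℝ) ^ (1 - ε / 2 / 8) with hρP
  have hρN0 : 0 < ρN := by positivity
  have hρN1 : 1 ≤ ρN := by
    apply Real.one_le_rpow hH1
    have : ε / (16 * D) ≤ 1 := by
      rw [div_le_one (by positivity)]
      linarith
    linarith
  have hρ : ρP ≤ ρN := by
    apply Real.rpow_le_rpow_of_exponent_le hH1
    have : ε / (16 * D) ≤ ε / 2 / 8 := by
      rw [div_div]
      apply div_le_div_of_nonneg_left hε.le (by norm_num)
      linarith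
    linarith
  set X : Finset ℤ := Finset.Icc (-(H : ℤ)) H with hX
  set N1 : Finset ℤ := X.filter (fun c => Near R ρN c) with hN1
  set N2 : Finset ℤ := X.filter (fun c => R.eval c ≠ 0 ∧
      (H : ℝ) ^ (ε / 2) * (smallRad K H (R.eval c).natAbs : ℝ) <
        (smallPart K H (R.eval c).natAbs : ℝ)) with hN2
  set N3 : Finset ℤ := X.filter (fun c => ∃ u ∈ U, R.leadingCoeff.natAbs * H ≤ u ∧
      (u : ℤ) ∣ R.eval c) with hN3
  set N4 : Finset ℤ := X.filter (fun c => (¬ Near R ρP c) ∧ ∃ u ∈ U, ∃ (v q e : ℕ) (σ : ℤ),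
      1 ≤ v ∧ Nat.Coprime v K ∧ v ≤ V ∧ 1 ≤ q ∧ 2 ≤ e ∧ e ≤ B + D + 1 ∧ (σ = 1 ∨ σ = -1) ∧
        R.eval c = σ * ((u : ℤ) * v) * (q : ℤ) ^ e) with hN4
  have hsub : X.filter (fun c => R.eval c = 0 ∨
      (partRad K (R.eval c).natAbs : ℝ) ≤ (H : ℝ) ^ (2 - ε₀)) ⊆ N1 ∪ N2 ∪ N3 ∪ N4 := by
    intro c hc
    rw [Finset.mem_filter] at hc
    obtain ⟨hcX, hc⟩ := hc
    simp only [Finset.mem_union]
    by_cases hnear : Near R ρN c
    · exact Or.inl (Or.inl (Or.inl (Finset.mem_filter.mpr ⟨hcX, hnear⟩)))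
    have hne : R.eval c ≠ 0 := fun h => hnear (near_of_zero hR0 hρN0 h)
    by_cases hsq : (H : ℝ) ^ (ε / 2) * (smallRad K H (R.eval c).natAbs : ℝ) <
        (smallPart K H (R.eval c).natAbs : ℝ)
    · exact Or.inl (Or.inl (Or.inr (Finset.mem_filter.mpr ⟨hcX, hne, hsq⟩)))
    rw [not_lt] at hsq
    have hpr : (partRad K (R.eval c).natAbs : ℝ) ≤ (H : ℝ) ^ (2 - ε) := by
      rcases hc with h | h
      · exact absurd h hne
      · exact h.trans (Real.rpow_le_rpow_of_exponent_le hH1 (by linarith))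
    have hcH : |c| ≤ (H : ℤ) := by
      rw [hX, Finset.mem_Icc] at hcX
      exact abs_le.mpr hcX
    obtain ⟨u, hu1, huH, huK, hu⟩ :=
      hSh H (by omega) R K hG c hcH hne hnear hsq hpr
    have huU : u ∈ U := Finset.mem_filter.mpr ⟨Finset.mem_Icc.mpr ⟨hu1, huH⟩, huK⟩
    rcases hu with ⟨hud, hul⟩ | ⟨v, q, e, σ, hv1, hvK, hvV, hq1, he2, heE, hσ, heq⟩
    · exact Or.inl (Or.inr (Finset.mem_filter.mpr ⟨hcX, u, huU, hul, hud⟩))
    · refine Or.inr (Finset.mem_filter.mpr ⟨hcX, fun h => hnear (near_mono hρ h), u, huU, v, q, e,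
        σ, hv1, hvK, Nat.le_floor hvV, hq1, he2, heE, hσ, heq⟩)
  -- the four counts
  have c1 : (N1.card : ℝ) ≤ δ / 6 * H := by
    obtain ⟨hfin, hcard⟩ := hNCT R D ρN hG.deg hρN0.le
    have hs1 : (N1 : Set ℤ) ⊆ {c : ℤ | Near R ρN c} := by
      intro c hc
      rw [Finset.mem_coe, hN1, Finset.mem_filter] at hc
      exact hc.2
    have h1 := Set.ncard_le_ncard hs1 hfin
    rw [Set.ncard_coe_finset] at h1
    have h2 : (N1.card : ℝ) ≤ D * (2 * ρN + 1) := le_trans (by exact_mod_cast h1) hcard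
    have h3 := h4 H (by omega)
    calc (N1.card : ℝ) ≤ D * (2 * ρN + 1) := h2
      _ ≤ D * (3 * ρN) := by
          apply mul_le_mul_of_nonneg_left _ (by positivity)
          linarith
      _ = 3 * D * (H : ℝ) ^ (1 - ε / (16 * D)) := by rw [hρN]; ring
      _ ≤ δ / 6 * H := h3
  have c2 : (N2.card : ℝ) ≤ δ / 6 * H := by
    have h1 := hS H (by omega) R K hG
    rwa [ncard_box] at h1
  have c3 : (N3.card : ℝ) ≤ δ / 6 * H := by
    have h1 := union_one hUCT R D H hG.deg (by omega) hlc hH2 U lam hlam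
    have h3 := h5 H (by omega)
    calc (N3.card : ℝ) ≤ U.card * (7 * D * (H : ℝ) ^ (1 - lam)) := by
          convert h1 using 1
      _ ≤ (CR * (H : ℝ) ^ η) * (7 * D * (H : ℝ) ^ (1 - lam)) := by
          apply mul_le_mul_of_nonneg_right hUcard (by positivity)
      _ = CR * (7 * D) * (H : ℝ) ^ (η + (1 - lam)) := by
          rw [Real.rpow_add hH0 η (1 - lam)]
          ring
      _ ≤ CR * (7 * D) * (H : ℝ) ^ (1 - lam / 2) := by
          apply mul_le_mul_of_nonneg_left _ (by positivity)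
          apply Real.rpow_le_rpow_of_exponent_le hH1
          linarith
      _ ≤ δ / 6 * H := h3
  have c4 : (N4.card : ℝ) ≤ δ / 6 * H := by
    have h1 := union_two R K D H (B + D + 1) V hRTC hG.deg hG.loc U (fun c => ¬ Near R ρP c)
      η δ' ε CP CD (by omega) hη hδ'0 hε hε1 hCP hCD1 hDom hV
      (fun u hu => (Finset.mem_Icc.mp (Finset.mem_filter.mp hu).1).1)
      (fun b c₀ v e hb hv1 hvV he2 heE => hP H (by omega) R hG.deg hG.coef hG.sep b c₀ v e hb hv1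
        (le_trans (by exact_mod_cast hvV) hV) he2 heE)
    have h3 := h6 H (by omega)
    calc (N4.card : ℝ) ≤ U.card * (2 * ((B + D + 1 : ℕ) + 1) * CP * CD *
            ((1 + 1 / η) * (H : ℝ) ^ (1 - δ' * ε / 2 + 2 * η))) := by
          rw [hN4]
          convert h1
      _ ≤ (CR * (H : ℝ) ^ η) * (2 * ((B + D + 1 : ℕ) + 1) * CP * CD *
            ((1 + 1 / η) * (H : ℝ) ^ (1 - δ' * ε / 2 + 2 * η))) := by
          apply mul_le_mul_of_nonneg_right hUcard (by positivity)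
      _ = CR * (2 * ((B + D + 1 : ℕ) + 1) * CP * CD * (1 + 1 / η)) *
            (H : ℝ) ^ (η + (1 - δ' * ε / 2 + 2 * η)) := by
          rw [Real.rpow_add hH0 η (1 - δ' * ε / 2 + 2 * η)]
          ring
      _ ≤ CR * (2 * ((B + D + 1 : ℕ) + 1) * CP * CD * (1 + 1 / η)) *
            (H : ℝ) ^ (1 - δ' * ε / 4) := by
          apply mul_le_mul_of_nonneg_left _ (by positivity)
          apply Real.rpow_le_rpow_of_exponent_le hH1
          linarith
      _ ≤ δ / 6 * H := h3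
  rw [ncard_box]
  calc ((X.filter (fun c => R.eval c = 0 ∨
      (partRad K (R.eval c).natAbs : ℝ) ≤ (H : ℝ) ^ (2 - ε₀))).card : ℝ)
      ≤ ((N1 ∪ N2 ∪ N3 ∪ N4).card : ℝ) := by exact_mod_cast Finset.card_le_card hsub
    _ ≤ (N1.card + N2.card + N3.card + N4.card : ℕ) := by
        have a1 := Finset.card_union_le (N1 ∪ N2 ∪ N3) N4
        have a2 := Finset.card_union_le (N1 ∪ N2) N3
        have a3 := Finset.card_union_le N1 N2
        exact_mod_cast (by omega)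
    _ = (N1.card : ℝ) + N2.card + N3.card + N4.card := by push_cast; ring
    _ ≤ δ / 6 * H + δ / 6 * H + δ / 6 * H + δ / 6 * H := by linarith
    _ ≤ δ * H := by nlinarith

end Pool.Agent.RAD
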