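import Pool.Agent.Helper94_Rad.Stmt

/-!
# Auxiliary estimates for the assembly of the radical lemma
-/

namespace Pool.Agent.RAD

open Polynomial Finset
open Helper5Frey (partRad)

lemma ncard_box (H : ℕ) (P : ℤ → Prop) [DecidablePred P] :
    {c : ℤ | |c| ≤ (H : ℤ) ∧ P c}.ncard = ((Finset.Icc (-(H : ℤ)) H).filter P).card := by
  rw [← Set.ncard_coe_finset]
  congr 1
  ext c
  simp [abs_le]

/-- The sum over the moduli `v`. -/
lemma sum_moduli (H V : ℕ) (hH : 1 ≤ H) (ε δ' η : ℝ) (hδ0 : 0 < δ') (hη : 0 < η)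
    (hV : (V : ℝ) ≤ (H : ℝ) ^ (1 - ε / 2)) (hε : 0 < ε) (hε1 : ε < 1) :
    ∑ v ∈ Finset.Icc 1 V, (v : ℝ) ^ η * ((H : ℝ) / v) ^ (1 - δ') ≤
      (1 + 1 / η) * (H : ℝ) ^ (1 - δ' * ε / 2 + 2 * η) := by
  have hH1 : (1 : ℝ) ≤ H := by exact_mod_cast hH
  have hH0 : (0 : ℝ) < H := by linarith
  have h1 : ∀ v ∈ Finset.Icc 1 V, (v : ℝ) ^ η * ((H : ℝ) / v) ^ (1 - δ') ≤
      (H : ℝ) ^ (1 - δ' * ε / 2 + η) * ((v : ℝ))⁻¹ := by
    intro v hv
    rw [Finset.mem_Icc] at hv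
    have hv1 : (1 : ℝ) ≤ v := by exact_mod_cast hv.1
    have hv0 : (0 : ℝ) < v := by linarith
    have hvV : (v : ℝ) ≤ (H : ℝ) ^ (1 - ε / 2) := le_trans (by exact_mod_cast hv.2) hV
    have e1 : (v : ℝ) ^ η * ((H : ℝ) / v) ^ (1 - δ') =
        (H : ℝ) ^ (1 - δ') * (v : ℝ) ^ (η + δ') * ((v : ℝ))⁻¹ := by
      rw [Real.div_rpow hH0.le hv0.le, div_eq_mul_inv, ← Real.rpow_neg hv0.le, ← Real.rpow_neg_one]
      have : (v : ℝ) ^ η * ((H : ℝ) ^ (1 - δ') * (v : ℝ) ^ (-(1 - δ'))) =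
          (H : ℝ) ^ (1 - δ') * ((v : ℝ) ^ η * (v : ℝ) ^ (-(1 - δ'))) := by ring
      rw [this, mul_assoc, ← Real.rpow_add hv0, ← Real.rpow_add hv0]
      congr 2
      ring
    rw [e1]
    apply mul_le_mul_of_nonneg_right _ (by positivity)
    have h2 : (v : ℝ) ^ (η + δ') ≤ ((H : ℝ) ^ (1 - ε / 2)) ^ (η + δ') :=
      Real.rpow_le_rpow hv0.le hvV (by linarith)
    have h3 : (H : ℝ) ^ (1 - δ') * ((H : ℝ) ^ (1 - ε / 2)) ^ (η + δ') =
        (H : ℝ) ^ (1 - δ' + (1 - ε / 2) * (η + δ')) := by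
      rw [← Real.rpow_mul hH0.le, ← Real.rpow_add hH0]
    calc (H : ℝ) ^ (1 - δ') * (v : ℝ) ^ (η + δ')
        ≤ (H : ℝ) ^ (1 - δ') * ((H : ℝ) ^ (1 - ε / 2)) ^ (η + δ') :=
          mul_le_mul_of_nonneg_left h2 (by positivity)
      _ = (H : ℝ) ^ (1 - δ' + (1 - ε / 2) * (η + δ')) := h3
      _ ≤ (H : ℝ) ^ (1 - δ' * ε / 2 + η) := by
          apply Real.rpow_le_rpow_of_exponent_le hH1
          nlinarith [mul_pos hε hη]
  calc ∑ v ∈ Finset.Icc 1 V, (v : ℝ) ^ η * ((H : ℝ) / v) ^ (1 - δ')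
      ≤ ∑ v ∈ Finset.Icc 1 V, (H : ℝ) ^ (1 - δ' * ε / 2 + η) * ((v : ℝ))⁻¹ :=
        Finset.sum_le_sum h1
    _ = (H : ℝ) ^ (1 - δ' * ε / 2 + η) * ∑ v ∈ Finset.Icc 1 V, ((v : ℝ))⁻¹ := by
        rw [Finset.mul_sum]
    _ ≤ (H : ℝ) ^ (1 - δ' * ε / 2 + η) * ((1 + 1 / η) * (H : ℝ) ^ η) := by
        apply mul_le_mul_of_nonneg_left _ (by positivity)
        have hh : (∑ v ∈ Finset.Icc 1 V, ((v : ℝ))⁻¹) ≤ 1 + Real.log V := by
          have := harmonic_le_one_add_log V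
          rw [harmonic_eq_sum_Icc] at this
          push_cast at this
          exact this
        have hVH : (V : ℝ) ≤ H := by
          refine hV.trans ?_
          calc (H : ℝ) ^ (1 - ε / 2) ≤ (H : ℝ) ^ (1 : ℝ) :=
                Real.rpow_le_rpow_of_exponent_le hH1 (by linarith)
            _ = H := Real.rpow_one _
        have hlog : Real.log V ≤ (H : ℝ) ^ η / η := by
          rcases Nat.eq_zero_or_pos V with h0 | h0
          · rw [h0]; simp; positivity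
          · have hV0 : (0 : ℝ) < V := by exact_mod_cast h0
            calc Real.log V ≤ Real.log H := Real.log_le_log hV0 hVH
              _ ≤ (H : ℝ) ^ η / η := Real.log_le_rpow_div hH0.le hη
        have hone : 1 ≤ (H : ℝ) ^ η := Real.one_le_rpow hH1 hη.le
        calc (∑ v ∈ Finset.Icc 1 V, ((v : ℝ))⁻¹) ≤ 1 + Real.log V := hh
          _ ≤ (H : ℝ) ^ η + (H : ℝ) ^ η / η := by linarith
          _ = (1 + 1 / η) * (H : ℝ) ^ η := by ring
    _ = (1 + 1 / η) * (H : ℝ) ^ (1 - δ' * ε / 2 + 2 * η) := by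
        have : (H : ℝ) ^ (1 - δ' * ε / 2 + 2 * η) =
            (H : ℝ) ^ (1 - δ' * ε / 2 + η) * (H : ℝ) ^ η := by
          rw [← Real.rpow_add hH0]
          congr 1
          ring
        rw [this]
        ring

end Pool.Agent.RAD
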