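import Pool.Agent.Helper94_Rad.Stmt2
import Pool.Agent.Helper41_Rad.SHP

/-!
# SHP2: the shapes of a value with a small radical outside `K`, degree at least two
-/

namespace Pool.Agent.RAD

open Polynomial H41
open Helper5Frey (partRad)

theorem shp2 (hnlb : NlbStmt) : Shp2Stmt := by
  intro D B ε hD hε0 hε1
  refine ⟨D + 2, ?_⟩
  intro H hH R K hG c hc hRc hNear hsmall hrad
  set m : ℕ := (R.eval c).natAbs with hm
  have hm0 : m ≠ 0 := by rw [hm]; exact Int.natAbs_ne_zero.2 hRc
  have hH1 : 1 ≤ H := by omega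
  have hHR : (1 : ℝ) ≤ H := by exact_mod_cast hH1
  have hHpos : (0 : ℝ) < H := by linarith
  have hK0 : K ≠ 0 := by have := hG.one_le; omega
  -- upper bound
  have hmub : m ≤ H ^ (B + D + 1) := by
    calc m ≤ (D + 1) * H ^ (B + D) := eval_bound hG.deg hG.coef hH1 hc
      _ ≤ H * H ^ (B + D) := Nat.mul_le_mul_right _ (by omega)
      _ = H ^ (B + D + 1) := by ring
  set u := kPart K m with hu
  set v := smallPart K H m with hv
  set s := smallRad K H m with hs
  set W := largePrimes K H m with hW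
  have hsplit : m = u * v * ∏ p ∈ W, p ^ m.factorization p := self_split hm0
  have hrsplit : partRad K m = s * ∏ p ∈ W, p := partRad_split K H m
  have hWmem : ∀ p ∈ W, p.Prime ∧ H < p ∧ 1 ≤ m.factorization p := by
    intro p hp
    have hp' := Finset.mem_filter.1 hp
    have hpp := Nat.prime_of_mem_primeFactors hp'.1
    have hpd := Nat.dvd_of_mem_primeFactors hp'.1
    refine ⟨hpp, not_le.1 hp'.2.2, ?_⟩
    exact (hpp.dvd_iff_one_le_factorization hm0).1 hpd
  have hupos : 1 ≤ u := kPart_pos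
  have hvpos : 1 ≤ v := smallPart_pos
  have hspos : 1 ≤ s := smallRad_pos
  have hudvd : u ∣ m := by
    rw [hsplit, mul_assoc]
    exact dvd_mul_right _ _
  refine ⟨u, hupos, (Nat.le_of_dvd (by omega) hudvd).trans hmub, kPart_primeFactors hK0, ?_⟩
  have hradR : (s : ℝ) * ((∏ p ∈ W, p : ℕ) : ℝ) ≤ (H : ℝ) ^ (2 - ε) := by
    have : ((partRad K m : ℕ) : ℝ) ≤ (H : ℝ) ^ (2 - ε) := hrad
    rw [hrsplit] at this
    push_cast at this ⊢
    exact this
  have hsmallR : (v : ℝ) ≤ (H : ℝ) ^ (ε / 2) * (s : ℝ) := hsmall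
  by_cases hcase : ∀ q ∈ W, m.factorization q ≤ 1
  · -- the part outside `K` is small
    left
    constructor
    · have : (u : ℤ) ∣ (m : ℤ) := by exact_mod_cast hudvd
      rw [hm] at this
      exact Int.dvd_natAbs.1 this
    · have hw : ∏ p ∈ W, p ^ m.factorization p = ∏ p ∈ W, p := by
        refine Finset.prod_congr rfl fun p hp => ?_
        have h1 := hcase p hp
        have h2 := (hWmem p hp).2.2
        have h3 : m.factorization p = 1 := by omega
        rw [h3, pow_one]
      have hmle : (m : ℝ) ≤ (u : ℝ) * (H : ℝ) ^ (2 - ε / 2) := by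
        have h1 : (m : ℝ) = (u : ℝ) * (v : ℝ) * ((∏ p ∈ W, p : ℕ) : ℝ) := by
          have h2 := hsplit
          rw [hw] at h2
          exact_mod_cast h2
        have hP0 : (0 : ℝ) ≤ ((∏ p ∈ W, p : ℕ) : ℝ) := Nat.cast_nonneg _
        have hu0 : (0 : ℝ) ≤ (u : ℝ) := Nat.cast_nonneg _
        have hE0 : (0 : ℝ) ≤ (H : ℝ) ^ (ε / 2) := by positivity
        calc (m : ℝ) = (u : ℝ) * ((v : ℝ) * ((∏ p ∈ W, p : ℕ) : ℝ)) := by rw [h1]; ring
          _ ≤ (u : ℝ) * (((H : ℝ) ^ (ε / 2) * (s : ℝ)) * ((∏ p ∈ W, p : ℕ) : ℝ)) := by gcongr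
          _ = (u : ℝ) * ((H : ℝ) ^ (ε / 2) * ((s : ℝ) * ((∏ p ∈ W, p : ℕ) : ℝ))) := by ring
          _ ≤ (u : ℝ) * ((H : ℝ) ^ (ε / 2) * (H : ℝ) ^ (2 - ε)) := by gcongr
          _ = (u : ℝ) * (H : ℝ) ^ (2 - ε / 2) := by
              rw [← Real.rpow_add hHpos]
              congr 2
              ring
      have hDR : (2 : ℝ) ≤ D := by exact_mod_cast hD
      have hD0 : (0 : ℝ) < D := by linarith
      have hR0 : R ≠ 0 := by
        rintro rfl
        simp at hRc
      have hlow := hnlb R D ((H : ℝ) ^ (1 - ε / (16 * D))) c hG.deg hR0 (by positivity) hNear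
      have hpow : ((H : ℝ) ^ (1 - ε / (16 * D))) ^ D = (H : ℝ) ^ ((D : ℝ) - ε / 16) := by
        rw [← Real.rpow_natCast, ← Real.rpow_mul hHpos.le]
        congr 1
        field_simp
      have habs : |((R.eval c : ℤ) : ℝ)| = (m : ℝ) := by
        rw [hm, ← Int.cast_abs, Int.abs_eq_natAbs]
        simp
      have hlc : |(R.leadingCoeff : ℝ)| = (R.leadingCoeff.natAbs : ℝ) := by
        rw [← Int.cast_abs, Int.abs_eq_natAbs]
        simp
      rw [hpow, habs, hlc] at hlow
      have hchain : (R.leadingCoeff.natAbs : ℝ) * (H : ℝ) ^ (ε / 4) * (H : ℝ) ^ (2 - ε / 2) ≤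
          (u : ℝ) * (H : ℝ) ^ (2 - ε / 2) := by
        calc (R.leadingCoeff.natAbs : ℝ) * (H : ℝ) ^ (ε / 4) * (H : ℝ) ^ (2 - ε / 2)
            = (R.leadingCoeff.natAbs : ℝ) * (H : ℝ) ^ (2 - ε / 4) := by
              rw [mul_assoc]
              congr 1
              rw [← Real.rpow_add hHpos]
              congr 1
              ring
          _ ≤ (R.leadingCoeff.natAbs : ℝ) * (H : ℝ) ^ ((D : ℝ) - ε / 16) := by
              refine mul_le_mul_of_nonneg_left ?_ (Nat.cast_nonneg _)
              exact Real.rpow_le_rpow_of_exponent_le hHR (by linarith)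
          _ ≤ (m : ℝ) := hlow
          _ ≤ _ := hmle
      exact le_of_mul_le_mul_right hchain (by positivity)
  · right
    push Not at hcase
    obtain ⟨q, hqW, hqe⟩ := hcase
    have hq := hWmem q hqW
    have hqR : (H : ℝ) < q := by exact_mod_cast hq.2.1
    have hPpos : ∀ p ∈ W, 1 ≤ p := fun p hp => (hWmem p hp).1.pos
    -- `W = {q}`
    have hWq : W = {q} := by
      rw [Finset.eq_singleton_iff_unique_mem]
      refine ⟨hqW, ?_⟩
      intro p hp
      by_contra hpq
      have hsub : ({p, q} : Finset ℕ) ⊆ W := by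
        intro x hx
        rw [Finset.mem_insert, Finset.mem_singleton] at hx
        rcases hx with rfl | rfl
        · exact hp
        · exact hqW
      have hle : p * q ≤ ∏ x ∈ W, x := by
        have h1 : ∏ x ∈ ({p, q} : Finset ℕ), x = p * q := Finset.prod_pair hpq
        rw [← h1]
        exact Finset.prod_le_prod_of_subset_of_one_le' hsub (fun i hi _ => hPpos i hi)
      have hpR : (H : ℝ) < p := by exact_mod_cast (hWmem p hp).2.1
      have h2 : (H : ℝ) * H < (p : ℝ) * q := mul_lt_mul'' hpR hqR hHpos.le hHpos.le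
      have h3 : (p : ℝ) * q ≤ ((∏ x ∈ W, x : ℕ) : ℝ) := by exact_mod_cast hle
      have h4 : ((∏ x ∈ W, x : ℕ) : ℝ) ≤ (s : ℝ) * ((∏ p ∈ W, p : ℕ) : ℝ) := by
        have : (1 : ℝ) ≤ s := by exact_mod_cast hspos
        exact le_mul_of_one_le_left (Nat.cast_nonneg _) this
      have h5 : (H : ℝ) ^ (2 - ε) ≤ (H : ℝ) * H := by
        calc (H : ℝ) ^ (2 - ε) ≤ (H : ℝ) ^ (2 : ℝ) :=
              Real.rpow_le_rpow_of_exponent_le hHR (by linarith)
          _ = (H : ℝ) * H := by
              rw [Real.rpow_two]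
              ring
      linarith
    set e := m.factorization q with he
    have hprodW : ∏ p ∈ W, p ^ m.factorization p = q ^ e := by
      rw [hWq, Finset.prod_singleton]
    have hprodW' : ∏ p ∈ W, p = q := by
      rw [hWq, Finset.prod_singleton]
    rw [hprodW] at hsplit
    rw [hprodW'] at hradR
    have hqpos : (0 : ℝ) < q := lt_trans hHpos hqR
    obtain ⟨σ, hσ, hσe⟩ : ∃ σ : ℤ, (σ = 1 ∨ σ = -1) ∧ R.eval c = σ * (m : ℤ) := by
      rcases Int.natAbs_eq (R.eval c) with h | h
      · exact ⟨1, Or.inl rfl, by rw [one_mul]; exact h⟩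
      · exact ⟨-1, Or.inr rfl, by rw [neg_one_mul]; exact h⟩
    refine ⟨v, q, e, σ, hvpos, smallPart_coprime, ?_, hq.1.pos, hqe, ?_, hσ, ?_⟩
    · -- `v ≤ H ^ (1 - ε / 2)`
      have h1 : (s : ℝ) * H ≤ (H : ℝ) ^ (2 - ε) := by
        have : (s : ℝ) * H ≤ (s : ℝ) * q := by gcongr
        linarith
      have h2 : (s : ℝ) ≤ (H : ℝ) ^ (1 - ε) := by
        have h3 : (H : ℝ) ^ (2 - ε) = (H : ℝ) ^ (1 - ε) * H := by
          rw [← Real.rpow_add_one' hHpos.le (by linarith)]
          congr 1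
          ring
        rw [h3] at h1
        exact le_of_mul_le_mul_right h1 hHpos
      calc (v : ℝ) ≤ (H : ℝ) ^ (ε / 2) * (s : ℝ) := hsmallR
        _ ≤ (H : ℝ) ^ (ε / 2) * (H : ℝ) ^ (1 - ε) := by gcongr
        _ = (H : ℝ) ^ (1 - ε / 2) := by
            rw [← Real.rpow_add hHpos]
            congr 1
            ring
    · -- `e ≤ B + D + 1`
      by_contra hcon
      push Not at hcon
      have h1 : H ^ e < q ^ e := Nat.pow_lt_pow_left hq.2.1 (by omega)
      have h2 : q ^ e ≤ m := by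
        refine Nat.le_of_dvd (by omega) ?_
        rw [hsplit]
        exact dvd_mul_left _ _
      have h3 : H ^ (B + D + 1) ≤ H ^ e := Nat.pow_le_pow_right hH1 hcon.le
      omega
    · rw [hσe]
      conv_lhs => rw [hsplit]
      push_cast
      ring

end Pool.Agent.RAD
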