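import Pool.Agent.Helper94_Rad.Defs

/-!
# Statements of the modules of the radical lemma
-/

namespace Pool.Agent.RAD

open Polynomial
open Helper5Frey (partRad)

/-- PRM: the primes have density zero. -/
def PrmStmt : Prop := ∀ δ : ℝ, 0 < δ → ∃ H₀ : ℕ, ∀ H : ℕ, H₀ ≤ H →
  (((Finset.range (H + 1)).filter Nat.Prime).card : ℝ) ≤ δ * H

/-- DOM: `D ^ ω(v)` is at most `C v ^ η`. -/
def DomStmt : Prop := ∀ (D : ℕ) (η : ℝ), 0 < η → ∃ C : ℝ, 1 ≤ C ∧ ∀ v : ℕ, 1 ≤ v →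
  ((D : ℝ) ^ v.primeFactors.card) ≤ C * (v : ℝ) ^ η

/-- RTC: at most `D ^ ω(v)` classes modulo `v` solve `R c ≡ 0`. -/
def RtcStmt : Prop := ∀ (R : ℤ[X]) (K D : ℕ), R.natDegree = D → Loc R K →
  ∀ v : ℕ, 1 ≤ v → Nat.Coprime v K → ∃ s : Finset ℤ, s.card ≤ D ^ v.primeFactors.card ∧
    ∀ c : ℤ, (v : ℤ) ∣ R.eval c → ∃ c₀ ∈ s, c ≡ c₀ [ZMOD v]

/-- UCT: few `c` with `R c` divisible by a number `u` which is large compared with the leading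
coefficient (Vandermonde determinant). -/
def UctStmt : Prop := ∀ (R : ℤ[X]) (D L H u : ℕ), R.natDegree = D → 1 ≤ D → 1 ≤ L →
  R.leadingCoeff.natAbs * L ^ (D * (D + 1) / 2) < u →
    {c : ℤ | |c| ≤ (H : ℤ) ∧ (u : ℤ) ∣ R.eval c}.ncard ≤ D * ((2 * H + 1) / L + 1)

/-- NCT: few integers are near a root. -/
def NctStmt : Prop := ∀ (R : ℤ[X]) (D : ℕ) (ρ : ℝ), R.natDegree = D → 0 ≤ ρ →
  {c : ℤ | Near R ρ c}.Finite ∧ ({c : ℤ | Near R ρ c}.ncard : ℝ) ≤ D * (2 * ρ + 1)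

/-- NLB: lower bound for `|R c|` far from the roots. -/
def NlbStmt : Prop := ∀ (R : ℤ[X]) (D : ℕ) (ρ : ℝ) (c : ℤ), R.natDegree = D → R ≠ 0 → 0 ≤ ρ →
  ¬ Near R ρ c → |(R.leadingCoeff : ℝ)| * ρ ^ D ≤ |((R.eval c : ℤ) : ℝ)|

/-- SQS: if `m` has no square divisor `t ^ 2`, `Z < t`, `t ^ 2 ≤ H`, prime to `K`, and is not
divisible by the square of a prime `p ≤ H < p ^ 2` which does not divide `K`, then the part of `m`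
composed of the primes up to `H` outside `K` is almost squarefree. -/
def SqsStmt : Prop := ∀ (K H m Z : ℕ), 1 ≤ m → 1 ≤ Z → Z ^ 4 ≤ H →
  (∀ t : ℕ, Z < t → t ^ 2 ≤ H → Nat.Coprime t K → ¬ t ^ 2 ∣ m) →
  (∀ p : ℕ, p.Prime → p ≤ H → H < p ^ 2 → ¬ p ∣ K → ¬ p ^ 2 ∣ m) →
    smallPart K H m ≤ Z ^ 2 * smallRad K H m

/-- SQC: for almost all `c` the small part of `R c` is almost squarefree. -/
def SqcStmt : Prop := ∀ (D B : ℕ) (ζ δ : ℝ), 0 < ζ → ζ ≤ 1 / 2 → 0 < δ → ∃ H₀ : ℕ,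
  ∀ H : ℕ, H₀ ≤ H → ∀ (R : ℤ[X]) (K : ℕ), Good D B H R K →
    ({c : ℤ | |c| ≤ (H : ℤ) ∧ R.eval c ≠ 0 ∧
      (H : ℝ) ^ ζ * (smallRad K H (R.eval c).natAbs : ℝ) <
        (smallPart K H (R.eval c).natAbs : ℝ)}.ncard : ℝ) ≤ δ * H

/-- APX: polynomial approximation of the `e`-th root of a polynomial. -/
def ApxStmt : Prop := ∀ D k e : ℕ, 1 ≤ k → 1 ≤ e → ∃ C : ℝ, 1 ≤ C ∧ ∀ F : ℝ[X],
  F.natDegree ≤ D → F.coeff 0 = 1 → (∀ n, |F.coeff n| ≤ 2 ^ D) →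
    ∃ P : ℝ[X], P.natDegree < k ∧ ∀ w y : ℝ, |w| * C ≤ 1 → 0 ≤ y → y ^ e = F.eval w →
      |y - P.eval w| ≤ C * |w| ^ k

/-- INT: few solutions of `R c = b q ^ e` in a short interval and a residue class modulo `v`. -/
def IntStmt : Prop := ∀ D k e : ℕ, 1 ≤ D → 1 ≤ k → 2 ≤ e → ∃ C : ℝ, 1 ≤ C ∧
  ∀ (R : ℤ[X]), R.natDegree = D → (R.map (Int.castRingHom ℚ)).Separable →
    ∀ (b c₀ : ℤ) (v : ℕ) (ρ Q Λ : ℝ), b ≠ 0 → 1 ≤ v → (v : ℝ) ≤ Λ → Λ * C ≤ ρ → 1 ≤ Q →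
      C * Q * (Λ / v) ^ (k * k) * (Λ / ρ) ^ k < 1 →
        ∀ S : Finset ℤ, (∀ c ∈ S, c ≡ c₀ [ZMOD v] ∧ ¬ Near R ρ c ∧
          ∃ q : ℕ, 1 ≤ q ∧ (q : ℝ) ≤ Q ∧ R.eval c = b * (q : ℤ) ^ e) →
            (∀ c ∈ S, ∀ c' ∈ S, |((c - c' : ℤ) : ℝ)| ≤ Λ) → S.card ≤ k + e * k + D

/-- PWR: few solutions of `R c = b q ^ e` in a residue class modulo `v ≤ H ^ (1 - ε)`. -/
def PwrStmt : Prop := ∀ (D B : ℕ) (ε : ℝ), 1 ≤ D → 0 < ε → ε < 1 →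
  ∃ δ' : ℝ, 0 < δ' ∧ δ' < 1 ∧ ∃ C : ℝ, 0 < C ∧ ∃ H₀ : ℕ, ∀ H : ℕ, H₀ ≤ H →
    ∀ (R : ℤ[X]), R.natDegree = D → (∀ i, |R.coeff i| ≤ (H : ℤ) ^ B) →
      (R.map (Int.castRingHom ℚ)).Separable →
        ∀ (b c₀ : ℤ) (v e : ℕ), b ≠ 0 → 1 ≤ v → (v : ℝ) ≤ (H : ℝ) ^ (1 - ε) → 2 ≤ e →
          e ≤ B + D + 1 →
            ({c : ℤ | |c| ≤ (H : ℤ) ∧ c ≡ c₀ [ZMOD v] ∧ ¬ Near R ((H : ℝ) ^ (1 - ε / 8)) c ∧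
              ∃ q : ℕ, 1 ≤ q ∧ R.eval c = b * (q : ℤ) ^ e}.ncard : ℝ) ≤
                C * ((H : ℝ) / v) ^ (1 - δ')

/-- The three shapes of a value with a small radical outside `K`: the part `u` composed of primes
of `K` is large, or the value is `± u v q ^ e` with `v` small and `e ≥ 2`. -/
def ShpStmt : Prop := ∀ (D B : ℕ) (ε : ℝ), 4 ≤ D → 0 < ε → ε < 1 → ∃ H₀ : ℕ, ∀ H : ℕ, H₀ ≤ H →
  ∀ (R : ℤ[X]) (K : ℕ), Good D B H R K → ∀ c : ℤ, |c| ≤ (H : ℤ) → R.eval c ≠ 0 →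
    ¬ Near R ((H : ℝ) ^ (1 - ε / (16 * D))) c →
    (smallPart K H (R.eval c).natAbs : ℝ) ≤
      (H : ℝ) ^ (ε / 2) * (smallRad K H (R.eval c).natAbs : ℝ) →
    (partRad K (R.eval c).natAbs : ℝ) ≤ (H : ℝ) ^ (2 - ε) →
    ∃ u : ℕ, 1 ≤ u ∧ u ≤ H ^ (B + D + 1) ∧ u.primeFactors ⊆ K.primeFactors ∧
      (((u : ℤ) ∣ R.eval c ∧ R.leadingCoeff.natAbs * H ≤ u) ∨
        ∃ (v q e : ℕ) (σ : ℤ), 1 ≤ v ∧ Nat.Coprime v K ∧ (v : ℝ) ≤ (H : ℝ) ^ (1 - ε / 2) ∧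
          1 ≤ q ∧ 2 ≤ e ∧ e ≤ B + D + 1 ∧ (σ = 1 ∨ σ = -1) ∧
          R.eval c = σ * ((u : ℤ) * v) * (q : ℤ) ^ e)

/-- RAD: the radical lemma. -/
def RadStmt : Prop := ∀ (D B : ℕ) (ε δ : ℝ), 4 ≤ D → 0 < ε → 0 < δ → ∃ H₀ : ℕ, ∀ H : ℕ, H₀ ≤ H →
  ∀ (R : ℤ[X]) (K : ℕ), Good D B H R K →
    ({c : ℤ | |c| ≤ (H : ℤ) ∧ (R.eval c = 0 ∨
      (partRad K (R.eval c).natAbs : ℝ) ≤ (H : ℝ) ^ (2 - ε))}.ncard : ℝ) ≤ δ * H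

end Pool.Agent.RAD
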